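import Mathlib

set_option autoImplicit false

/-! # Spheres of FM-tetrahedra never meet the opposite faces -/

namespace Pool.Agent.Results.MP_a6ca0f_co.OppositeFaces

/-- the Euclidean space `ℝ³` -/
abbrev E3 : Type := EuclideanSpace ℝ (Fin 3)

/-- the small radius `r = √2 - 1` -/
noncomputable def r : ℝ := Real.sqrt 2 - 1

/-- A packing, written as the set of its balls `b = (centre, radius)`: every radius is `1` or
`r = √2 - 1`, and the interiors (open balls) of distinct members are disjoint. -/
def IsPacking (P : Set (E3 × ℝ)) : Prop :=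
  (∀ b ∈ P, b.2 = 1 ∨ b.2 = r) ∧
    ∀ b ∈ P, ∀ b' ∈ P, b ≠ b' → Disjoint (Metric.ball b.1 b.2) (Metric.ball b'.1 b'.2)

/-- `P` is saturated: no further ball of radius `r` can be added, that is the interior of every
ball of radius `r` meets the interior of a ball of `P`. -/
def IsSaturated (P : Set (E3 × ℝ)) : Prop :=
  ∀ x : E3, ∃ b ∈ P, ¬ Disjoint (Metric.ball x r) (Metric.ball b.1 b.2)

/-- the additively weighted Voronoi cell of the ball `b` of the packing `P`: the points `x` at
which `|x - c| - ρ` is smallest for `b = (c, ρ)` -/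
def cell (P : Set (E3 × ℝ)) (b : E3 × ℝ) : Set E3 :=
  {x | ∀ b' ∈ P, dist x b.1 - b.2 ≤ dist x b'.1 - b'.2}

/-- The four balls `b 0, …, b 3` of `P` are the balls of a tetrahedron of the additively weighted
Delaunay decomposition of `P`: their centres are affinely independent and their cells have a
common point (the vertex of the Voronoi diagram dual to the tetrahedron, or to the polyhedron
from which the tetrahedron is cut). -/
def IsDelaunayTetrahedron (P : Set (E3 × ℝ)) (b : Fin 4 → E3 × ℝ) : Prop :=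
  (∀ i, b i ∈ P) ∧ AffineIndependent ℝ (fun i => (b i).1) ∧ ∃ v : E3, ∀ i, v ∈ cell P (b i)

/-- An FM-tetrahedron (given by its four balls): it occurs in the FM-decomposition of some
saturated packing. -/
def IsFMTetrahedron (b : Fin 4 → E3 × ℝ) : Prop :=
  ∃ P : Set (E3 × ℝ), IsPacking P ∧ IsSaturated P ∧ IsDelaunayTetrahedron P b

/-- The general statement, for any family of balls in any real inner product space: if the ball
number `a` has interior disjoint from the others and some ball of radius `t ≤ ρ a` is externally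
tangent to all of them, then the open ball number `a` misses the convex hull of the other
centres. -/
theorem general {E : Type*} [NormedAddCommGroup E] [InnerProductSpace ℝ E] {ι : Type*}
    (c : ι → E) (ρ : ι → ℝ) (s : E) (t : ℝ) (a : ι) (hρ : ∀ i, 0 ≤ ρ i) (ht : 0 ≤ t)
    (hta : t ≤ ρ a) (hdis : ∀ i, i ≠ a → ρ a + ρ i ≤ dist (c a) (c i))
    (hs : ∀ i, dist s (c i) = t + ρ i) :
    Disjoint (Metric.ball (c a) (ρ a)) (convexHull ℝ (c '' {i | i ≠ a})) := by
  -- the half-space in which `|A - y|² - |s - y|² ≥ ρ_a² - t²`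
  have key : ∀ y : E, ‖c a - y‖ ^ 2 - ‖s - y‖ ^ 2
      = ‖c a‖ ^ 2 - ‖s‖ ^ 2 - 2 * inner ℝ (c a - s) y := by
    intro y
    rw [@norm_sub_sq_real, @norm_sub_sq_real, inner_sub_left]
    ring
  have hconv : Convex ℝ {y : E | inner ℝ (c a - s) y
      ≤ (‖c a‖ ^ 2 - ‖s‖ ^ 2 - (ρ a ^ 2 - t ^ 2)) / 2} := by
    apply convex_halfSpace_le
    exact (innerSL ℝ (c a - s)).toLinearMap.isLinear
  have hsub : convexHull ℝ (c '' {i | i ≠ a}) ⊆ {y : E | inner ℝ (c a - s) y
      ≤ (‖c a‖ ^ 2 - ‖s‖ ^ 2 - (ρ a ^ 2 - t ^ 2)) / 2} := by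
    apply convexHull_min _ hconv
    rintro _ ⟨i, hi, rfl⟩
    have hk := key (c i)
    have h1 : ρ a + ρ i ≤ ‖c a - c i‖ := by
      rw [← dist_eq_norm]; exact hdis i hi
    have h2 : ‖s - c i‖ = t + ρ i := by
      rw [← dist_eq_norm]; exact hs i
    have h3 : (ρ a + ρ i) ^ 2 ≤ ‖c a - c i‖ ^ 2 := by
      have := hρ a
      have := hρ i
      gcongr
    rw [h2] at hk
    have h4 : 0 ≤ (ρ a - t) * ρ i := mul_nonneg (by linarith) (hρ i)
    show inner ℝ (c a - s) (c i) ≤ _
    nlinarith
  rw [Set.disjoint_left]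
  intro p hp hp'
  have h1 : inner ℝ (c a - s) p ≤ (‖c a‖ ^ 2 - ‖s‖ ^ 2 - (ρ a ^ 2 - t ^ 2)) / 2 := hsub hp'
  have hk := key p
  have h2 : ‖c a - p‖ < ρ a := by
    have := Metric.mem_ball'.mp hp
    rwa [dist_eq_norm] at this
  have h3 : t < ‖s - p‖ := by
    have h4 : dist s (c a) ≤ dist s p + dist p (c a) := dist_triangle _ _ _
    have h5 : dist p (c a) < ρ a := Metric.mem_ball.mp hp
    rw [hs a, dist_eq_norm s p] at h4
    linarith
  have h4 : ‖c a - p‖ ^ 2 < ρ a ^ 2 := by
    have := norm_nonneg (c a - p)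
    gcongr
  have h5 : t ^ 2 < ‖s - p‖ ^ 2 := by gcongr
  linarith

theorem r_pos : 0 < r := by
  have : (1 : ℝ) < Real.sqrt 2 := by
    rw [Real.lt_sqrt (by norm_num)]; norm_num
  unfold r; linarith

theorem r_lt_one : r < 1 := by
  have : Real.sqrt 2 < 2 := by
    rw [Real.sqrt_lt' (by norm_num)]; norm_num
  unfold r; linarith

/-- **Positive answer to Q1.** For every FM-tetrahedron and each of its vertices `a`, the open ball
of the packing centred at `a` does not meet the (closed) opposite face. The same holds, in every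
real inner product space and for every family of balls of nonnegative radii, as soon as the ball
number `a` has interior disjoint from the others and there is a support ball (externally tangent to
all balls of the family) whose radius is at most the radius of the ball number `a`. -/
theorem result :
    (∀ b : Fin 4 → E3 × ℝ, IsFMTetrahedron b → ∀ a : Fin 4,
      Disjoint (Metric.ball (b a).1 (b a).2)
        (convexHull ℝ ((fun i => (b i).1) '' {i | i ≠ a}))) ∧
    (∀ (E : Type) [NormedAddCommGroup E] [InnerProductSpace ℝ E] (ι : Type)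
      (c : ι → E) (ρ : ι → ℝ) (s : E) (t : ℝ) (a : ι), (∀ i, 0 ≤ ρ i) → 0 ≤ t → t ≤ ρ a →
      (∀ i, i ≠ a → ρ a + ρ i ≤ dist (c a) (c i)) → (∀ i, dist s (c i) = t + ρ i) →
      Disjoint (Metric.ball (c a) (ρ a)) (convexHull ℝ (c '' {i | i ≠ a}))) := by
  refine ⟨?_, fun E _ _ ι c ρ s t a hρ ht hta hdis hs => general c ρ s t a hρ ht hta hdis hs⟩
  rintro b ⟨P, ⟨hrad, hdisj⟩, hsat, hmem, hind, v, hv⟩ a
  have hinj : ∀ i j : Fin 4, i ≠ j → b i ≠ b j := by
    intro i j hij h
    apply hij
    exact hind.injective (by simp [h])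
  have hpos : ∀ b' ∈ P, r ≤ b'.2 := by
    intro b' hb'
    rcases hrad b' hb' with h | h
    · rw [h]; exact r_lt_one.le
    · rw [h]
  have hr := r_pos
  -- the common value of `|v - c| - ρ`
  have heq : ∀ i, dist v (b i).1 = (dist v (b a).1 - (b a).2) + (b i).2 := by
    intro i
    have h1 := hv i (b a) (hmem a)
    have h2 := hv a (b i) (hmem i)
    linarith
  have hd : ∀ i j, i ≠ j → (b i).2 + (b j).2 ≤ dist (b i).1 (b j).1 := by
    intro i j hij
    exact (disjoint_ball_ball_iff (lt_of_lt_of_le hr (hpos _ (hmem i)))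
      (lt_of_lt_of_le hr (hpos _ (hmem j)))).mp (hdisj _ (hmem i) _ (hmem j) (hinj i j hij))
  have ht0 : 0 ≤ dist v (b a).1 - (b a).2 := by
    have h1 := hd 0 1 (by decide)
    have h2 := dist_triangle_left (b 0).1 (b 1).1 v
    rw [heq 0, heq 1] at h2
    linarith
  have htr : dist v (b a).1 - (b a).2 < r := by
    by_contra hcon
    push Not at hcon
    obtain ⟨b', hb', hnd⟩ := hsat v
    apply hnd
    rw [disjoint_ball_ball_iff hr (lt_of_lt_of_le hr (hpos _ hb'))]
    have := hv a b' hb'
    linarith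
  exact general (fun i => (b i).1) (fun i => (b i).2) v _ a
    (fun i => (hr.le.trans (hpos _ (hmem i)))) ht0 (htr.le.trans (hpos _ (hmem a)))
    (fun i hi => hd a i (Ne.symm hi)) heq

end Pool.Agent.Results.MP_a6ca0f_co.OppositeFaces
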